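import Mathlib

/-!
# Triangular automorphisms of free groups
-/

set_option autoImplicit false

namespace Pool.Agent.X250.Tri

open FreeGroup (of)

variable {n : ℕ}

/-- the free group on `x i`, `i < k` -/
def Fk (k : Fin n) : Subgroup (FreeGroup (Fin n)) := Subgroup.closure (of '' {i | i < k})

/-- `ψ` maps each `x i` to `u x i v`, with `u`, `v` in the group generated by the `x j`, `j < i` -/
def IsTri (ψ : MulAut (FreeGroup (Fin n))) : Prop :=
  ∀ i : Fin n, ∃ u ∈ Fk i, ∃ v ∈ Fk i, ψ (of i) = u * of i * v

/-- `x k ↦ x k * x i` -/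
def rt (i k : Fin n) (h : i ≠ k) : MulAut (FreeGroup (Fin n)) :=
  MonoidHom.toMulEquiv (FreeGroup.lift (Function.update of k (of k * of i)))
    (FreeGroup.lift (Function.update of k (of k * (of i)⁻¹)))
    (by
      apply FreeGroup.ext_hom
      intro j
      by_cases hj : j = k
      · subst hj
        simp [h]
      · simp [hj])
    (by
      apply FreeGroup.ext_hom
      intro j
      by_cases hj : j = k
      · subst hj
        simp [h]
      · simp [hj])

/-- `x k ↦ (x i)⁻¹ * x k` -/
def lt (i k : Fin n) (h : i ≠ k) : MulAut (FreeGroup (Fin n)) :=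
  MonoidHom.toMulEquiv (FreeGroup.lift (Function.update of k ((of i)⁻¹ * of k)))
    (FreeGroup.lift (Function.update of k (of i * of k)))
    (by
      apply FreeGroup.ext_hom
      intro j
      by_cases hj : j = k
      · subst hj
        simp [h]
      · simp [hj])
    (by
      apply FreeGroup.ext_hom
      intro j
      by_cases hj : j = k
      · subst hj
        simp [h]
      · simp [hj])

theorem rt_k (i k : Fin n) (h : i ≠ k) : rt i k h (of k) = of k * of i := by
  show FreeGroup.lift (Function.update of k (of k * of i)) (of k) = _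
  simp

theorem rt_j (i k : Fin n) (h : i ≠ k) (j : Fin n) (hj : j ≠ k) : rt i k h (of j) = of j := by
  show FreeGroup.lift (Function.update of k (of k * of i)) (of j) = _
  simp [hj]

theorem lt_k (i k : Fin n) (h : i ≠ k) : lt i k h (of k) = (of i)⁻¹ * of k := by
  show FreeGroup.lift (Function.update of k ((of i)⁻¹ * of k)) (of k) = _
  simp

theorem lt_j (i k : Fin n) (h : i ≠ k) (j : Fin n) (hj : j ≠ k) : lt i k h (of j) = of j := by
  show FreeGroup.lift (Function.update of k ((of i)⁻¹ * of k)) (of j) = _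
  simp [hj]

theorem inv_eq {α : MulAut (FreeGroup (Fin n))} {a b : FreeGroup (Fin n)} (h : α a = b) : α⁻¹ b = a := by
  rw [← h, MulAut.inv_apply_self]

/-- the automorphisms which fix the `x j`, `j ≠ k` -/
def S (k : Fin n) : Subgroup (MulAut (FreeGroup (Fin n))) where
  carrier := {α | ∀ j, j ≠ k → α (of j) = of j}
  mul_mem' := by
    intro α β hα hβ j hj
    rw [MulAut.mul_apply, hβ j hj, hα j hj]
  one_mem' := fun j _ => rfl
  inv_mem' := by
    intro α hα j hj
    exact inv_eq (hα j hj)

theorem S_fix {k : Fin n} {α : MulAut (FreeGroup (Fin n))} (hα : α ∈ S k) {w : FreeGroup (Fin n)} (hw : w ∈ Fk k) :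
    α w = w := by
  induction hw using Subgroup.closure_induction with
  | mem x hx =>
    obtain ⟨i, hi, rfl⟩ := hx
    exact hα i (ne_of_lt hi)
  | one => exact map_one α
  | mul x y _ _ hx hy => rw [map_mul, hx, hy]
  | inv x _ hx => rw [map_inv, hx]

/-- right multiplications -/
def R (k : Fin n) : FreeGroup (Fin n) →* MulAut (FreeGroup (Fin n)) :=
  FreeGroup.lift fun i => if h : i < k then rt i k (ne_of_lt h) else 1

/-- left multiplications -/
def L (k : Fin n) : FreeGroup (Fin n) →* MulAut (FreeGroup (Fin n)) :=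
  FreeGroup.lift fun i => if h : i < k then lt i k (ne_of_lt h) else 1

theorem R_S (k : Fin n) (w : FreeGroup (Fin n)) : R k w ∈ S k := by
  refine FreeGroup.induction_on w (by rw [map_one]; exact one_mem _) (fun i => ?_)
    (fun i h => by rw [map_inv]; exact inv_mem h) (fun x y hx hy => by rw [map_mul]; exact mul_mem hx hy)
  intro j hj
  show R k (of i) (of j) = of j
  rw [R, FreeGroup.lift_apply_of]
  split_ifs with h
  · exact rt_j _ _ _ _ hj
  · rfl

theorem L_S (k : Fin n) (w : FreeGroup (Fin n)) : L k w ∈ S k := by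
  refine FreeGroup.induction_on w (by rw [map_one]; exact one_mem _) (fun i => ?_)
    (fun i h => by rw [map_inv]; exact inv_mem h) (fun x y hx hy => by rw [map_mul]; exact mul_mem hx hy)
  intro j hj
  show L k (of i) (of j) = of j
  rw [L, FreeGroup.lift_apply_of]
  split_ifs with h
  · exact lt_j _ _ _ _ hj
  · rfl

theorem R_k {k : Fin n} {w : FreeGroup (Fin n)} (hw : w ∈ Fk k) : R k w (of k) = of k * w := by
  induction hw using Subgroup.closure_induction with
  | mem x hx =>
    obtain ⟨i, hi, rfl⟩ := hx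
    rw [R, FreeGroup.lift_apply_of, dif_pos (show i < k from hi)]
    exact rt_k _ _ _
  | one => rw [map_one, mul_one]; rfl
  | mul x y _ hy' hx hy =>
    rw [map_mul, MulAut.mul_apply, hy, map_mul, hx, S_fix (R_S k x) hy', mul_assoc]
  | inv x hx' hx =>
    have h1 : R k x (of k * x⁻¹) = of k := by
      rw [map_mul, hx, map_inv, S_fix (R_S k x) hx', mul_assoc, mul_inv_cancel, mul_one]
    rw [map_inv]
    exact inv_eq h1

theorem L_k {k : Fin n} {w : FreeGroup (Fin n)} (hw : w ∈ Fk k) : L k w (of k) = w⁻¹ * of k := by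
  induction hw using Subgroup.closure_induction with
  | mem x hx =>
    obtain ⟨i, hi, rfl⟩ := hx
    rw [L, FreeGroup.lift_apply_of, dif_pos (show i < k from hi)]
    exact lt_k _ _ _
  | one => rw [map_one, inv_one, one_mul]; rfl
  | mul x y _ hy' hx hy =>
    rw [map_mul, MulAut.mul_apply, hy, map_mul, hx, map_inv, S_fix (L_S k x) hy', mul_inv_rev, mul_assoc]
  | inv x hx' hx =>
    have h1 : L k x (x * of k) = of k := by
      rw [map_mul, hx, S_fix (L_S k x) hx', mul_inv_cancel_left]
    rw [map_inv, inv_inv]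
    exact inv_eq h1

/-! ### characteristic subgroups of finite index -/

/-- characteristic and of finite index -/
def Good (K : Subgroup (FreeGroup (Fin n))) : Prop := K.Characteristic ∧ K.FiniteIndex

/-- the intersection of the kernels of all actions on `Y` -/
def C (n : ℕ) (Y : Type) : Subgroup (FreeGroup (Fin n)) := ⨅ f : FreeGroup (Fin n) →* Equiv.Perm Y, f.ker

theorem C_good (Y : Type) [Finite Y] : Good (C n Y) := by
  constructor
  · rw [Subgroup.characteristic_iff_le_comap]
    intro φ x hx
    rw [Subgroup.mem_comap]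
    rw [C, Subgroup.mem_iInf] at hx ⊢
    exact fun f => hx (f.comp φ.toMonoidHom)
  · have : Finite (FreeGroup (Fin n) →* Equiv.Perm Y) :=
      Finite.of_equiv _ (FreeGroup.lift (α := Fin n) (β := Equiv.Perm Y))
    unfold C
    exact Subgroup.finiteIndex_iInf fun f => inferInstance

theorem good_inf {K K' : Subgroup (FreeGroup (Fin n))} (h : Good K) (h' : Good K') : Good (K ⊓ K') := by
  refine ⟨?_, ?_⟩
  · rw [Subgroup.characteristic_iff_le_comap]
    intro φ x hx
    exact ⟨Subgroup.characteristic_iff_le_comap.1 h.1 φ hx.1, Subgroup.characteristic_iff_le_comap.1 h'.1 φ hx.2⟩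
  · have := h.2
    have := h'.2
    exact inferInstance

theorem C_le (D : Subgroup (FreeGroup (Fin n))) [D.FiniteIndex] : C n (FreeGroup (Fin n) ⧸ D) ≤ D := by
  intro x hx
  rw [C, Subgroup.mem_iInf] at hx
  have h1 := hx (MulAction.toPermHom (FreeGroup (Fin n)) (FreeGroup (Fin n) ⧸ D))
  have h2 : x • ((1 : FreeGroup (Fin n)) : FreeGroup (Fin n) ⧸ D) = ((1 : FreeGroup (Fin n)) : FreeGroup (Fin n) ⧸ D) := by
    have h3 := congrArg (fun e : Equiv.Perm (FreeGroup (Fin n) ⧸ D) =>
      e ((1 : FreeGroup (Fin n)) : FreeGroup (Fin n) ⧸ D)) (MonoidHom.mem_ker.1 h1)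
    exact h3
  rw [MulAction.Quotient.smul_coe, smul_eq_mul, mul_one, QuotientGroup.eq, mul_one] at h2
  exact inv_mem_iff.1 h2

end Pool.Agent.X250.Tri
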