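import Pool.Agent.X250.Tri.Base

/-!
# The congruence subgroup property relative to the triangular automorphisms
-/

set_option autoImplicit false

namespace Pool.Agent.X250.Tri

open FreeGroup (of)

variable {n : ℕ}

/-- the automorphisms which act trivially modulo `K` -/
def Gam (K : Subgroup (FreeGroup (Fin n))) [K.Normal] : Subgroup (MulAut (FreeGroup (Fin n))) where
  carrier := {α | ∀ x, QuotientGroup.mk' K (α x) = QuotientGroup.mk' K x}
  mul_mem' := by
    intro α β hα hβ x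
    rw [MulAut.mul_apply, hα, hβ]
  one_mem' := fun x => rfl
  inv_mem' := by
    intro α hα x
    have h1 := hα (α⁻¹ x)
    rw [MulAut.apply_inv_self] at h1
    exact h1.symm

theorem mem_Gam {K : Subgroup (FreeGroup (Fin n))} [K.Normal] {α : MulAut (FreeGroup (Fin n))}
    (h : ∀ j, QuotientGroup.mk' K (α (of j)) = QuotientGroup.mk' K (of j)) : α ∈ Gam K := by
  have h1 : (QuotientGroup.mk' K).comp α.toMonoidHom = QuotientGroup.mk' K := FreeGroup.ext_hom _ _ fun j => h j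
  intro x
  exact congrArg (fun f : FreeGroup (Fin n) →* FreeGroup (Fin n) ⧸ K => f x) h1

theorem Gam_mono {K K' : Subgroup (FreeGroup (Fin n))} [K.Normal] [K'.Normal] (h : K ≤ K') : Gam K ≤ Gam K' := by
  intro α hα x
  have h1 := hα x
  rw [QuotientGroup.mk'_apply, QuotientGroup.mk'_apply, QuotientGroup.eq] at h1 ⊢
  exact h h1

/-- separating the two factors -/
theorem sep {k : Fin n} {K' : Subgroup (FreeGroup (Fin n))} [K'.Normal] {u v : FreeGroup (Fin n)} (hu : u ∈ Fk k)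
    (hv : v ∈ Fk k) (h : u * of k * v * (of k)⁻¹ ∈ C n ((FreeGroup (Fin n) ⧸ K') ⊕ (FreeGroup (Fin n) ⧸ K'))) :
    u ∈ K' ∧ v ∈ K' := by
  classical
  obtain ⟨Q, hQ⟩ : ∃ Q : Type, Q = (FreeGroup (Fin n) ⧸ K') := ⟨_, rfl⟩
  let f : FreeGroup (Fin n) →* Equiv.Perm ((FreeGroup (Fin n) ⧸ K') ⊕ (FreeGroup (Fin n) ⧸ K')) :=
    FreeGroup.lift fun i => if i = k then Equiv.sumComm _ _ else
      Equiv.sumCongr (Equiv.mulLeft ((of i : FreeGroup (Fin n)) : FreeGroup (Fin n) ⧸ K')) (Equiv.refl _)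
  have hf : ∀ w ∈ Fk k, (∀ q : FreeGroup (Fin n) ⧸ K', f w (Sum.inl q) = Sum.inl ((w : FreeGroup (Fin n) ⧸ K') * q)) ∧
      ∀ q : FreeGroup (Fin n) ⧸ K', f w (Sum.inr q) = Sum.inr q := by
    intro w hw
    induction hw using Subgroup.closure_induction with
    | mem x hx =>
      obtain ⟨i, hi, rfl⟩ := hx
      have h1 : f (of i) = Equiv.sumCongr (Equiv.mulLeft ((of i : FreeGroup (Fin n)) : FreeGroup (Fin n) ⧸ K'))
          (Equiv.refl _) := by
        show FreeGroup.lift _ (of i) = _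
        rw [FreeGroup.lift_apply_of, if_neg (ne_of_lt (show i < k from hi))]
      rw [h1]
      exact ⟨fun q => rfl, fun q => rfl⟩
    | one => exact ⟨fun q => by rw [map_one, QuotientGroup.mk_one, one_mul]; rfl, fun q => by rw [map_one]; rfl⟩
    | mul x y _ _ hx hy =>
      refine ⟨fun q => ?_, fun q => ?_⟩
      · rw [map_mul, Equiv.Perm.mul_apply, hy.1, hx.1, QuotientGroup.mk_mul, mul_assoc]
      · rw [map_mul, Equiv.Perm.mul_apply, hy.2, hx.2]
    | inv x _ hx =>
      refine ⟨fun q => ?_, fun q => ?_⟩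
      · rw [map_inv, Equiv.Perm.inv_eq_iff_eq, hx.1, QuotientGroup.mk_inv, mul_inv_cancel_left]
      · rw [map_inv, Equiv.Perm.inv_eq_iff_eq, hx.2]
  have hk : f (of k) = Equiv.sumComm _ _ := by
    show FreeGroup.lift _ (of k) = _
    rw [FreeGroup.lift_apply_of, if_pos rfl]
  rw [C, Subgroup.mem_iInf] at h
  have h1 := MonoidHom.mem_ker.1 (h f)
  rw [map_mul, mul_eq_one_iff_eq_inv, map_inv, inv_inv, map_mul, map_mul] at h1
  have h2 := congrArg (fun e : Equiv.Perm ((FreeGroup (Fin n) ⧸ K') ⊕ (FreeGroup (Fin n) ⧸ K')) =>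
    e (Sum.inr 1)) h1
  have h3 := congrArg (fun e : Equiv.Perm ((FreeGroup (Fin n) ⧸ K') ⊕ (FreeGroup (Fin n) ⧸ K')) =>
    e (Sum.inl 1)) h1
  rw [Equiv.Perm.mul_apply, Equiv.Perm.mul_apply, (hf v hv).2, hk] at h2
  rw [Equiv.Perm.mul_apply, Equiv.Perm.mul_apply, (hf v hv).1, hk] at h3
  change f u (Sum.inl 1) = Sum.inl 1 at h2
  change f u (Sum.inr ((v : FreeGroup (Fin n) ⧸ K') * 1)) = Sum.inr 1 at h3
  rw [(hf u hu).1] at h2
  rw [(hf u hu).2] at h3
  have h4 := Sum.inl_injective h2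
  have h5 := Sum.inr_injective h3
  rw [mul_one] at h4 h5
  exact ⟨(QuotientGroup.eq_one_iff u).1 h4, (QuotientGroup.eq_one_iff v).1 h5⟩

theorem Fk_mono {i k : Fin n} (h : i ≤ k) : Fk i ≤ Fk k :=
  Subgroup.closure_mono (Set.image_mono fun _ hj => lt_of_lt_of_le hj h)

theorem norm_of_good {K : Subgroup (FreeGroup (Fin n))} (h : Good K) : K.Normal :=
  have := h.1
  inferInstance

theorem comap_fin {G : Type} [Group G] (N : Subgroup (MulAut (FreeGroup (Fin n)))) [N.FiniteIndex]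
    (f : G →* MulAut (FreeGroup (Fin n))) : (N.comap f).FiniteIndex := by
  refine ⟨?_⟩
  rw [Subgroup.index_comap]
  have h : (N.subgroupOf f.range).FiniteIndex := inferInstance
  exact h.index_ne_zero

/-- the induction -/
theorem claim (N : Subgroup (MulAut (FreeGroup (Fin n)))) [N.FiniteIndex] : ∀ k : ℕ, k ≤ n →
    ∃ K : Subgroup (FreeGroup (Fin n)), Good K ∧ ∃ _ : K.Normal, ∀ ψ : MulAut (FreeGroup (Fin n)), IsTri ψ →
      (∀ i : Fin n, k ≤ i → ψ (of i) = of i) → ψ ∈ Gam K → ψ ∈ N := by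
  intro k
  induction k with
  | zero =>
    intro _
    refine ⟨⊤, ⟨inferInstance, inferInstance⟩, inferInstance, fun ψ _ h _ => ?_⟩
    have h1 : ψ = 1 := by
      have h2 : ψ.toMonoidHom = MonoidHom.id _ := FreeGroup.ext_hom _ _ fun j => h j (Nat.zero_le _)
      apply MulEquiv.ext
      intro x
      exact congrArg (fun f : FreeGroup (Fin n) →* FreeGroup (Fin n) => f x) h2
    rw [h1]
    exact one_mem N
  | succ k ih =>
    intro hk
    obtain ⟨K, hK, hKn, hKN⟩ := ih (by omega)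
    obtain ⟨kk, hkk⟩ : ∃ kk : Fin n, kk.1 = k := ⟨⟨k, by omega⟩, rfl⟩
    have i1 : (N.comap (R kk)).FiniteIndex := comap_fin N _
    have i2 : (N.comap (L kk)).FiniteIndex := comap_fin N _
    obtain ⟨K1, hK1⟩ : ∃ K1, K1 = K ⊓ C n (FreeGroup (Fin n) ⧸ N.comap (R kk)) ⊓
      C n (FreeGroup (Fin n) ⧸ N.comap (L kk)) := ⟨_, rfl⟩
    have hg1 : Good K1 := hK1 ▸ good_inf (good_inf hK (C_good _)) (C_good _)
    have hn1 : K1.Normal := norm_of_good hg1
    have hf1 := hg1.2
    obtain ⟨K2, hK2⟩ : ∃ K2, K2 = K1 ⊓ C n ((FreeGroup (Fin n) ⧸ K1) ⊕ (FreeGroup (Fin n) ⧸ K1)) := ⟨_, rfl⟩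
    have hg2 : Good K2 := hK2 ▸ good_inf hg1 (C_good _)
    have hn2 : K2.Normal := norm_of_good hg2
    have h10 : K1 ≤ K := by rw [hK1]; exact inf_le_left.trans inf_le_left
    have h21 : K2 ≤ K1 := by rw [hK2]; exact inf_le_left
    refine ⟨K2, hg2, hn2, fun ψ hT hfix hψ => ?_⟩
    obtain ⟨u, hu, v, hv, huv⟩ := hT kk
    have h1 := hψ (of kk)
    rw [QuotientGroup.mk'_apply, QuotientGroup.mk'_apply, huv] at h1
    have h2 : u * of kk * v * (of kk)⁻¹ ∈ K2 := by
      rw [← QuotientGroup.eq_one_iff, QuotientGroup.mk_mul _ (u * of kk * v), h1, QuotientGroup.mk_inv,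
        mul_inv_cancel]
    obtain ⟨hu1, hv1⟩ := sep hu hv ((hK2 ▸ inf_le_right : K2 ≤ _) h2)
    have hvN : R kk v ∈ N := by
      have h3 : v ∈ N.comap (R kk) := C_le _ ((hK1 ▸ inf_le_left.trans inf_le_right : K1 ≤ _) hv1)
      exact h3
    have huN : L kk u⁻¹ ∈ N := by
      have h3 : u⁻¹ ∈ N.comap (L kk) := C_le _ ((hK1 ▸ inf_le_right : K1 ≤ _) (inv_mem hu1))
      exact h3
    obtain ⟨ρ, hρ⟩ : ∃ ρ, ρ = L kk u⁻¹ * R kk v := ⟨_, rfl⟩
    have hρN : ρ ∈ N := hρ ▸ mul_mem huN hvN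
    have hρS : ρ ∈ S kk := hρ ▸ mul_mem (L_S kk _) (R_S kk _)
    have hρk : ρ (of kk) = u * of kk * v := by
      rw [hρ, MulAut.mul_apply, R_k hv, map_mul, L_k (inv_mem hu), inv_inv, S_fix (L_S kk _) hv]
    have hρG : ρ ∈ Gam K := by
      refine mem_Gam fun j => ?_
      by_cases hj : j = kk
      · subst hj
        rw [hρk, map_mul, map_mul]
        have e1 : QuotientGroup.mk' K u = 1 := (QuotientGroup.eq_one_iff u).2 (h10 hu1)
        have e2 : QuotientGroup.mk' K v = 1 := (QuotientGroup.eq_one_iff v).2 (h10 hv1)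
        rw [e1, e2, one_mul, mul_one]
      · rw [hρS j hj]
    have hφ : ρ⁻¹ * ψ ∈ N := by
      refine hKN _ (fun i => ?_) (fun i hi => ?_) (mul_mem (inv_mem hρG) (Gam_mono (h21.trans h10) hψ))
      · rcases lt_trichotomy i kk with h | h | h
        · obtain ⟨a, ha, b, hb, hab⟩ := hT i
          refine ⟨a, ha, b, hb, ?_⟩
          rw [MulAut.mul_apply, hab]
          refine S_fix (inv_mem hρS) (mul_mem (mul_mem (Fk_mono h.le ha) (Subgroup.subset_closure ⟨i, h, rfl⟩))
            (Fk_mono h.le hb))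
        · subst h
          refine ⟨1, one_mem _, 1, one_mem _, ?_⟩
          rw [MulAut.mul_apply, huv, one_mul, mul_one]
          exact inv_eq hρk
        · refine ⟨1, one_mem _, 1, one_mem _, ?_⟩
          have h3 : k + 1 ≤ i.1 := by
            have : kk.1 < i.1 := h
            omega
          rw [MulAut.mul_apply, hfix i h3, one_mul, mul_one]
          exact inv_mem hρS i h.ne'
      · by_cases h : i = kk
        · subst h
          rw [MulAut.mul_apply, huv]
          exact inv_eq hρk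
        · have h3 : k + 1 ≤ i.1 := by
            have : i.1 ≠ kk.1 := fun e => h (Fin.ext e)
            omega
          rw [MulAut.mul_apply, hfix i h3]
          exact inv_mem hρS i h
    have h3 : ψ = ρ * (ρ⁻¹ * ψ) := by rw [mul_inv_cancel_left]
    rw [h3]
    exact mul_mem hρN hφ

end Pool.Agent.X250.Tri
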