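import Pool.Agent.X250.Tri.Main

/-!
# The version modulo inner automorphisms
-/

set_option autoImplicit false

namespace Pool.Agent.X250.Tri

open FreeGroup (of)

variable {n : ℕ}

/-- the centralizer of a generator -/
theorem cent {K : Subgroup (FreeGroup (Fin n))} [K.Normal] [K.FiniteIndex] (k : Fin n) {g : FreeGroup (Fin n)}
    (h : of k * (g * of k * g⁻¹)⁻¹ ∈ C n ((FreeGroup (Fin n) ⧸ K) × ZMod 2)) :
    (g : FreeGroup (Fin n) ⧸ K) ∈ Subgroup.zpowers ((of k : FreeGroup (Fin n)) : FreeGroup (Fin n) ⧸ K) := by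
  classical
  obtain ⟨t, ht⟩ : ∃ t : FreeGroup (Fin n) ⧸ K, t = ((of k : FreeGroup (Fin n)) : FreeGroup (Fin n) ⧸ K) := ⟨_, rfl⟩
  let e0 : Equiv.Perm ((FreeGroup (Fin n) ⧸ K) × ZMod 2) :=
    { toFun := fun p => (t * p.1, p.2 + if p.1 = 1 then 1 else 0)
      invFun := fun p => (t⁻¹ * p.1, p.2 - if t⁻¹ * p.1 = 1 then 1 else 0)
      left_inv := fun p => by
        ext
        · simp
        · simp
      right_inv := fun p => by
        ext
        · simp
        · simp }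
  let f : FreeGroup (Fin n) →* Equiv.Perm ((FreeGroup (Fin n) ⧸ K) × ZMod 2) :=
    FreeGroup.lift fun i => if i = k then e0 else
      Equiv.prodCongr (Equiv.mulLeft ((of i : FreeGroup (Fin n)) : FreeGroup (Fin n) ⧸ K)) (Equiv.refl _)
  have hfk : f (of k) = e0 := by
    show FreeGroup.lift _ (of k) = _
    rw [FreeGroup.lift_apply_of, if_pos rfl]
  have hfo : ∀ (i : Fin n) (p : (FreeGroup (Fin n) ⧸ K) × ZMod 2),
      (f (of i) p).1 = ((of i : FreeGroup (Fin n)) : FreeGroup (Fin n) ⧸ K) * p.1 := by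
    intro i p
    by_cases hi : i = k
    · subst hi
      rw [hfk, ← ht]
      rfl
    · have h1 : f (of i) = Equiv.prodCongr (Equiv.mulLeft ((of i : FreeGroup (Fin n)) : FreeGroup (Fin n) ⧸ K))
          (Equiv.refl _) := by
        show FreeGroup.lift _ (of i) = _
        rw [FreeGroup.lift_apply_of, if_neg hi]
      rw [h1]
      rfl
  have hf1 : ∀ (w : FreeGroup (Fin n)) (p : (FreeGroup (Fin n) ⧸ K) × ZMod 2),
      (f w p).1 = (w : FreeGroup (Fin n) ⧸ K) * p.1 := by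
    intro w
    refine FreeGroup.induction_on w (fun p => by rw [map_one, QuotientGroup.mk_one, one_mul]; rfl) (fun i p => hfo i p)
      (fun i _ p => ?_) (fun x y hx hy p => ?_)
    · have h1 := hfo i (f (of i)⁻¹ p)
      have h2 : f (of i) (f (of i)⁻¹ p) = p := by
        rw [map_inv]
        show (f (of i) * (f (of i))⁻¹) p = p
        rw [mul_inv_cancel]
        rfl
      rw [h2] at h1
      rw [QuotientGroup.mk_inv, h1]
      exact (inv_mul_cancel_left _ _).symm
    · rw [map_mul, Equiv.Perm.mul_apply, hx, hy, QuotientGroup.mk_mul, mul_assoc]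
  have he0 : ∀ p : (FreeGroup (Fin n) ⧸ K) × ZMod 2, e0 p = (t * p.1, p.2 + if p.1 = 1 then 1 else 0) := fun p => rfl
  have hcomm : Commute e0 (f g) := by
    rw [C, Subgroup.mem_iInf] at h
    have h1 := MonoidHom.mem_ker.1 (h f)
    rw [map_mul, map_inv, map_mul, map_mul, map_inv, hfk, mul_inv_eq_one] at h1
    show e0 * f g = f g * e0
    rw [eq_mul_inv_iff_mul_eq] at h1
    exact h1
  rw [← ht]
  by_contra hg
  have h3 : ∀ (j : ℕ) (a : ZMod 2), (e0 ^ j) ((g : FreeGroup (Fin n) ⧸ K), a) =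
      (t ^ j * (g : FreeGroup (Fin n) ⧸ K), a) := by
    intro j a
    induction j with
    | zero => rw [pow_zero, pow_zero, one_mul]; rfl
    | succ j ih =>
      rw [pow_succ', Equiv.Perm.mul_apply, ih, he0]
      have h4 : t ^ j * (g : FreeGroup (Fin n) ⧸ K) ≠ 1 := by
        intro h5
        apply hg
        rw [← inv_eq_of_mul_eq_one_right h5]
        exact inv_mem (Subgroup.npow_mem_zpowers t j)
      dsimp only
      rw [if_neg h4, add_zero, pow_succ', mul_assoc]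
  have h4 : ∀ (j : ℕ) (a : ZMod 2), j < orderOf t → (e0 ^ (j + 1)) (1, a) = (t ^ (j + 1), a + 1) := by
    intro j a
    induction j with
    | zero =>
      intro _
      rw [zero_add, pow_one, pow_one, he0]
      dsimp only
      rw [mul_one, if_pos rfl]
    | succ j ih =>
      intro hj
      rw [pow_succ', Equiv.Perm.mul_apply, ih (by omega), he0]
      dsimp only
      rw [if_neg (pow_ne_one_of_lt_orderOf (Nat.succ_ne_zero j) hj), add_zero, ← pow_succ']
  have hpos : 0 < orderOf t := orderOf_pos t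
  obtain ⟨r, hr⟩ := Nat.exists_eq_add_of_le' hpos
  have h5 := h4 r 0 (by omega)
  have hr' : r + 1 = orderOf t := by omega
  rw [hr', pow_orderOf_eq_one, zero_add] at h5
  have h6 := (hcomm.pow_left (orderOf t)).eq
  have h7 := congrArg (fun e : Equiv.Perm ((FreeGroup (Fin n) ⧸ K) × ZMod 2) => e (1, 0)) h6
  change (e0 ^ orderOf t) (f g (1, 0)) = f g ((e0 ^ orderOf t) (1, 0)) at h7
  rw [h5] at h7
  have h8 : f g (1, 0) = ((g : FreeGroup (Fin n) ⧸ K), (f g (1, 0)).2) := by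
    refine Prod.ext ?_ rfl
    rw [hf1, mul_one]
  rw [h8, h3, pow_orderOf_eq_one, one_mul, ← h8] at h7
  have h9 := (f g).injective h7
  have h10 := congrArg Prod.snd h9
  change (0 : ZMod 2) = 1 at h10
  exact absurd h10 (by decide)

theorem IsTri.conj {ψ : MulAut (FreeGroup (Fin (n + 1)))} (h : IsTri ψ) (a : ℤ) :
    IsTri ((MulAut.conj (of (0 : Fin (n + 1)) ^ a))⁻¹ * ψ) := by
  intro i
  obtain ⟨u, hu, v, hv, huv⟩ := h i
  have h0 : Fk (0 : Fin (n + 1)) = ⊥ := by
    unfold Fk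
    have : {i : Fin (n + 1) | i < 0} = ∅ := by
      ext j
      simp
    rw [this, Set.image_empty, Subgroup.closure_empty]
  have e1 : ((MulAut.conj (of (0 : Fin (n + 1)) ^ a))⁻¹ * ψ) (of i) =
      (of (0 : Fin (n + 1)) ^ a)⁻¹ * (u * of i * v) * of (0 : Fin (n + 1)) ^ a := by
    rw [MulAut.mul_apply, huv, ← map_inv, MulAut.conj_apply, inv_inv]
  rw [e1]
  by_cases hi : i = 0
  · subst hi
    rw [h0, Subgroup.mem_bot] at hu hv
    subst hu
    subst hv
    refine ⟨1, one_mem _, 1, one_mem _, ?_⟩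
    rw [one_mul, mul_one]
    have h1 : Commute (of (0 : Fin (n + 1)) ^ a) (of (0 : Fin (n + 1))) := (Commute.refl _).zpow_left a
    rw [mul_assoc, h1.symm.eq, inv_mul_cancel_left]
  · have ht0 : of (0 : Fin (n + 1)) ∈ Fk i :=
      Subgroup.subset_closure (Set.mem_image_of_mem of (Fin.pos_of_ne_zero hi))
    have ht : of (0 : Fin (n + 1)) ^ a ∈ Fk i := zpow_mem ht0 a
    refine ⟨(of (0 : Fin (n + 1)) ^ a)⁻¹ * u, mul_mem (inv_mem ht) hu, v * of (0 : Fin (n + 1)) ^ a,
      mul_mem hv ht, ?_⟩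
    group

theorem triv_of {K : Subgroup (FreeGroup (Fin n))} [K.Normal] {a b : FreeGroup (Fin n)} (h : a * b⁻¹ ∈ K) :
    (a : FreeGroup (Fin n) ⧸ K) = b := by
  rw [← QuotientGroup.eq_one_iff, QuotientGroup.mk_mul, QuotientGroup.mk_inv, mul_inv_eq_one] at h
  exact h

/-- the main theorem -/
theorem main (N : Subgroup (MulAut (FreeGroup (Fin n)))) [N.FiniteIndex] :
    (∃ K : Subgroup (FreeGroup (Fin n)), K.Characteristic ∧ K.FiniteIndex ∧ ∀ ψ : MulAut (FreeGroup (Fin n)),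
      IsTri ψ → (∀ x, ψ x * x⁻¹ ∈ K) → ψ ∈ N) ∧
    ((∀ g, MulAut.conj g ∈ N) → ∃ K : Subgroup (FreeGroup (Fin n)), K.Characteristic ∧ K.FiniteIndex ∧
      ∀ ψ : MulAut (FreeGroup (Fin n)), IsTri ψ → (∃ g, ∀ x, ψ x * (g * x * g⁻¹)⁻¹ ∈ K) → ψ ∈ N) := by
  obtain ⟨K, hK, hKn, h⟩ := claim N n le_rfl
  have h' : ∀ ψ : MulAut (FreeGroup (Fin n)), IsTri ψ → ψ ∈ Gam K → ψ ∈ N := fun ψ h1 h2 =>
    h ψ h1 (fun i hi => absurd i.2 (by omega)) h2
  refine ⟨⟨K, hK.1, hK.2, fun ψ h1 h2 => h' ψ h1 fun x => triv_of (h2 x)⟩, fun hN => ?_⟩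
  cases n with
  | zero =>
    refine ⟨K, hK.1, hK.2, fun ψ _ _ => ?_⟩
    have h1 : ψ = 1 := by
      apply MulEquiv.ext
      intro x
      exact Subsingleton.elim _ _
    rw [h1]
    exact one_mem N
  | succ n =>
    have hKf := hK.2
    have hg : Good (K ⊓ C (n + 1) ((FreeGroup (Fin (n + 1)) ⧸ K) × ZMod 2)) := good_inf hK (C_good _)
    refine ⟨_, hg.1, hg.2, fun ψ h1 h2 => ?_⟩
    obtain ⟨g, h2⟩ := h2
    have hψ0 : ψ (of 0) = of 0 := by
      obtain ⟨u, hu, v, hv, huv⟩ := h1 0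
      have h0 : Fk (0 : Fin (n + 1)) = ⊥ := by
        unfold Fk
        have : {i : Fin (n + 1) | i < 0} = ∅ := by
          ext j
          simp
        rw [this, Set.image_empty, Subgroup.closure_empty]
      rw [h0, Subgroup.mem_bot] at hu hv
      rw [huv, hu, hv, one_mul, mul_one]
    have h3 := h2 (of 0)
    rw [hψ0] at h3
    obtain ⟨a, ha⟩ := Subgroup.mem_zpowers_iff.1 (cent 0 h3.2)
    have h4 : (MulAut.conj (of (0 : Fin (n + 1)) ^ a))⁻¹ * ψ ∈ N := by
      refine h' _ (h1.conj a) fun x => ?_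
      have h5 := triv_of (h2 x).1
      rw [QuotientGroup.mk'_apply, QuotientGroup.mk'_apply, MulAut.mul_apply, ← map_inv, MulAut.conj_apply, inv_inv,
        QuotientGroup.mk_mul, QuotientGroup.mk_mul, h5, QuotientGroup.mk_mul, QuotientGroup.mk_mul,
        QuotientGroup.mk_inv, QuotientGroup.mk_inv, QuotientGroup.mk_zpow, ha]
      group
    have h5 : ψ = MulAut.conj (of (0 : Fin (n + 1)) ^ a) * ((MulAut.conj (of (0 : Fin (n + 1)) ^ a))⁻¹ * ψ) := by
      rw [mul_inv_cancel_left]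
    rw [h5]
    exact mul_mem (hN _) h4

end Pool.Agent.X250.Tri
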